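import Pool.Agent.T9h59.BT.Count
import Pool.Agent.T9h59.OR.C
import Pool.Agent.T9h59.OR.D

/-!
# The inequality of Brun and Titchmarsh near the orders of the subgroups of `F_p^*`
-/

set_option autoImplicit false

namespace Pool.Agent.T9h59.BT

open Finset Filter
open Pool.Agent.Results.MP_26a8c3_nt.PositionsInWindows (Bad N)
open Pool.Agent.N733.TG (Expanding expanding_pow step_sum)
open Pool.Agent.T9h59.OR (SubOrder)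

/-- the inequality of Brun and Titchmarsh with the constant `2 - δ₀`, for all moduli `k`, all classes and all intervals of
the stated kind, the position `(x - y) / k` of which has the property `P` -/
def Holds (η κ c δ₀ : ℝ) (P : ℝ → Prop) : Prop :=
  ∀ (k : ℕ) (l : ℤ) (x y : ℝ), 1 ≤ k → Int.gcd l k = 1 → P ((x - y) / k) → (k : ℝ) ≤ ((x - y) / k) ^ c →
    ((x - y) / k) ^ η ≤ y / k → y / k ≤ ((x - y) / k) ^ κ →
    (N x y k l : ℝ) < (2 - δ₀) * y / (Nat.totient k * Real.log (y / k))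

/-- few primes have a subgroup of a small order which contains a small integer -/
lemma small_orders (w₀ : ℕ) {γ η : ℝ} (hγ0 : 0 ≤ γ) (hγ1 : γ < 1) (hη : η < (1 - γ) / 2) :
    ∃ C : ℝ, ∀ X : ℕ, 1 ≤ X →
      ({p : ℕ | p.Prime ∧ p ≤ X ∧ ∃ w, SubOrder ((X : ℝ) ^ γ) p w ∧ w ≤ w₀}.ncard : ℝ) ≤ C * (X : ℝ) ^ (1 - η) := by
  obtain ⟨C, -, hC⟩ := Pool.Agent.T9h59.OR.sub_scale (expanding_pow (α := 1) (d := 1) one_pos le_rfl) (κ := 0) (c := γ) (η := η)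
    le_rfl one_pos hγ0 hγ1 (by linarith)
  refine ⟨C * (range (w₀ + 1)).card, fun X hX => le_trans ?_ (hC X hX (range (w₀ + 1)))⟩
  rw [Nat.cast_le]
  refine Set.ncard_le_ncard ?_ ((Set.finite_Icc 0 X).subset (fun p hp => ⟨Nat.zero_le _, hp.2.1⟩))
  rintro p ⟨hp, hpX, w, hw, hw0⟩
  refine ⟨hp, hpX, w, hw, w, mem_range.2 (by omega), ?_⟩
  rw [Real.rpow_one, one_mul, sub_self, abs_zero]
  positivity

/-- the order is large if `G w - w ^ ϑ` is not large -/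
lemma exists_large {G : ℕ → ℝ} {d : ℝ} (hG : Expanding G d) {ϑ ϑ' : ℝ} (hϑ : 0 ≤ ϑ) (hϑϑ : ϑ < ϑ') (hϑ1 : ϑ < 1) (z₀ : ℝ) :
    ∃ w₀ : ℕ, ∀ w : ℕ, w₀ < w → 1 ≤ w ∧ z₀ ≤ G w - (w : ℝ) ^ ϑ ∧ (w : ℝ) ^ ϑ + 1 ≤ (w : ℝ) ^ ϑ' := by
  obtain ⟨a, ha, hstep⟩ := hG.step
  have T : ∀ {r : ℝ}, 0 < r → Tendsto (fun w : ℕ => (w : ℝ) ^ r) atTop atTop := fun hr =>
    (tendsto_rpow_atTop hr).comp tendsto_natCast_atTop_atTop
  obtain ⟨w₀, hw₀⟩ := (((T (show 0 < ϑ' - ϑ by linarith)).eventually_ge_atTop 2).and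
    (((T (show 0 < 1 - ϑ by linarith)).eventually_ge_atTop (2 / a)).and
    ((tendsto_natCast_atTop_atTop (R := ℝ)).eventually_ge_atTop (2 * (z₀ - G 1 + a) / a + 1)))).exists_forall_of_atTop
  refine ⟨w₀, fun w hw => ?_⟩
  obtain ⟨g1, g2, g3⟩ := hw₀ w hw.le
  have hw1 : 1 ≤ w := by omega
  have hw1r : (1 : ℝ) ≤ w := by exact_mod_cast hw1
  have hw0 : (0 : ℝ) < w := by linarith
  have h1 : 1 ≤ (w : ℝ) ^ ϑ := Real.one_le_rpow hw1r hϑ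
  refine ⟨hw1, ?_, ?_⟩
  · have h2 := step_sum hstep le_rfl hw1
    rw [Nat.cast_sub hw1, Nat.cast_one] at h2
    have h3 : (w : ℝ) ^ (1 - ϑ) * (w : ℝ) ^ ϑ = w := by
      rw [← Real.rpow_add hw0, sub_add_cancel, Real.rpow_one]
    have h4 : (w : ℝ) ^ ϑ ≤ a / 2 * w := by
      have h5 : 2 / a * (w : ℝ) ^ ϑ ≤ w := by
        calc 2 / a * (w : ℝ) ^ ϑ ≤ (w : ℝ) ^ (1 - ϑ) * (w : ℝ) ^ ϑ := mul_le_mul_of_nonneg_right g2 (by linarith)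
          _ = w := h3
      have h6 := mul_le_mul_of_nonneg_left h5 (show 0 ≤ a / 2 by positivity)
      calc (w : ℝ) ^ ϑ = a / 2 * (2 / a * (w : ℝ) ^ ϑ) := by field_simp
        _ ≤ _ := h6
    have h7 : 2 * (z₀ - G 1 + a) ≤ a * w := by
      have h8 : 2 * (z₀ - G 1 + a) / a ≤ w := by linarith
      rw [div_le_iff₀ ha] at h8
      linarith
    nlinarith
  · have h2 : (w : ℝ) ^ ϑ' = (w : ℝ) ^ (ϑ' - ϑ) * (w : ℝ) ^ ϑ := by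
      rw [← Real.rpow_add hw0, sub_add_cancel]
    rw [h2]
    nlinarith

/-- **The inequality of Brun and Titchmarsh near the orders of the subgroups.** -/
theorem sub_orders {G : ℕ → ℝ} {d ϑ γ t η κ c δ₀ ρ : ℝ} (hG : Expanding G d) (ht1 : 1 / 2 ≤ t) (ht : t < 1) (hη : 0 < η)
    (hηκ : η ≤ κ) (hκ : κ < t) (hc : 0 ≤ c) (hδ₀ : δ₀ < 2 - 2 * κ / t) (hϑ : 0 ≤ ϑ)
    (h1 : d * (2 * t - η + 2 * c) + ϑ < 1) (hγ0 : 0 ≤ γ) (hγ1 : γ < 1)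
    (hρ : ρ < (1 - γ) * (1 - (d * (2 * t - η + 2 * c) + ϑ)) / 2) :
    ∃ C : ℝ, ∀ X : ℕ, 1 ≤ X →
      ({p : ℕ | p.Prime ∧ p ≤ X ∧ ¬ ∀ w, SubOrder ((X : ℝ) ^ γ) p w →
        Holds η κ c δ₀ (fun z => |z - G w| ≤ (w : ℝ) ^ ϑ)}.ncard : ℝ) ≤ C * (X : ℝ) ^ (1 - ρ) := by
  have hd1 := hG.one_le
  obtain ⟨s, hs⟩ : ∃ s : ℝ, s = 2 * t - η + 2 * c := ⟨_, rfl⟩
  rw [← hs] at h1 hρ
  have hs0 : 0 < s := by rw [hs]; linarith
  obtain ⟨D, hD⟩ : ∃ D : ℝ, D = 1 - (d * s + ϑ) := ⟨_, rfl⟩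
  obtain ⟨e, he⟩ : ∃ e : ℝ, e = (1 - γ) * D / 2 - ρ := ⟨_, rfl⟩
  have hD0 : 0 < D := by rw [hD]; linarith
  have he0 : 0 < e := by rw [he, hD]; linarith
  obtain ⟨τ, hτ⟩ : ∃ τ : ℝ, τ = min e (D / 2) / (2 * d + 1) := ⟨_, rfl⟩
  have hτ0 : 0 < τ := by rw [hτ]; exact div_pos (lt_min he0 (by linarith)) (by linarith)
  have hτm : τ * (2 * d + 1) = min e (D / 2) := by
    rw [hτ]
    exact div_mul_cancel₀ _ (by linarith)
  have hτ1 : τ * (2 * d + 1) ≤ e := by rw [hτm]; exact min_le_left _ _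
  have hτ2 : τ * (2 * d + 1) ≤ D / 2 := by rw [hτm]; exact min_le_right _ _
  have hϑ1 : ϑ < 1 := by
    have : 0 ≤ d * s := by positivity
    linarith
  obtain ⟨δ, ρ', hδ, hρ', z₀, hz₀, hreal⟩ := real_bound (c' := c + τ) ht1 hη hηκ hκ hc (by linarith) hδ₀
  have hcount := count_nat t η (c + τ) δ ρ' ht1 ht hη (by linarith) hδ hρ' (by linarith)
  have es : 2 * t - η + 2 * (c + τ) = s + 2 * τ := by rw [hs]; ring
  rw [es] at hcount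
  have hd0 : 0 ≤ d := by linarith
  have h1γ : 0 < 1 - γ := by linarith
  have eD : 1 - (d * (s + 2 * τ) + (ϑ + τ)) = D - τ * (2 * d + 1) := by rw [hD]; ring
  obtain ⟨C₁, hC₁⟩ := Pool.Agent.T9h59.OR.sub_good_nat (fun _ => True) (fun M => M ∉ Bad t η (c + τ) δ ρ' M) hG
    (s := s + 2 * τ) (κ := ϑ + τ) (c := γ) (η := ρ) (by linarith) (by linarith) (by
      have : 0 < 1 - (d * (s + 2 * τ) + (ϑ + τ)) := by rw [eD]; linarith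
      linarith) hcount hγ0 hγ1 (by
      rw [eD]
      have h2 : (1 - γ) * (τ * (2 * d + 1)) ≤ 1 * e := mul_le_mul (by linarith) hτ1 (by positivity) zero_le_one
      have h3 : (1 - γ) * (D - τ * (2 * d + 1)) / 2 = (1 - γ) * D / 2 - (1 - γ) * (τ * (2 * d + 1)) / 2 := by ring
      rw [h3]
      linarith)
  obtain ⟨w₀, hw₀⟩ := exists_large hG hϑ (show ϑ < ϑ + τ by linarith) hϑ1 z₀
  obtain ⟨C₂, hC₂⟩ := small_orders w₀ (η := ρ) hγ0 hγ1 (by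
    refine lt_of_lt_of_le hρ ?_
    apply div_le_div_of_nonneg_right _ (by norm_num)
    have h4 : 0 ≤ d * s + ϑ := by positivity
    calc (1 - γ) * (1 - (d * s + ϑ)) ≤ (1 - γ) * 1 := mul_le_mul_of_nonneg_left (by linarith) h1γ.le
      _ = 1 - γ := mul_one _)
  refine ⟨C₁ + C₂, fun X hX => ?_⟩
  have h5 := hC₁ X hX
  have h6 := hC₂ X hX
  obtain ⟨S₁, hS₁⟩ : ∃ S : Set ℕ, S = {p : ℕ | p.Prime ∧ p ≤ X ∧ ¬ ∀ w, SubOrder ((X : ℝ) ^ γ) p w → ∀ n : ℕ, 1 ≤ n → True →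
    |(n : ℝ) - G w| ≤ (w : ℝ) ^ (ϑ + τ) → n ∉ Bad t η (c + τ) δ ρ' n} := ⟨_, rfl⟩
  obtain ⟨S₂, hS₂⟩ : ∃ S : Set ℕ, S = {p : ℕ | p.Prime ∧ p ≤ X ∧ ∃ w, SubOrder ((X : ℝ) ^ γ) p w ∧ w ≤ w₀} := ⟨_, rfl⟩
  rw [← hS₁] at h5
  rw [← hS₂] at h6
  have hfin : (S₁ ∪ S₂).Finite := by
    refine (Set.finite_Icc 0 X).subset (fun p hp => ⟨Nat.zero_le _, ?_⟩)
    rcases hp with hp | hp
    · rw [hS₁] at hp
      exact hp.2.1
    · rw [hS₂] at hp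
      exact hp.2.1
  have hsub : {p : ℕ | p.Prime ∧ p ≤ X ∧ ¬ ∀ w, SubOrder ((X : ℝ) ^ γ) p w →
        Holds η κ c δ₀ (fun z => |z - G w| ≤ (w : ℝ) ^ ϑ)} ⊆ S₁ ∪ S₂ := by
    rintro p ⟨hp, hpX, hn⟩
    by_contra hcon
    rw [Set.mem_union, not_or] at hcon
    obtain ⟨n1, n2⟩ := hcon
    apply hn
    intro w hw k l x y hk hgcd hP hkc hy1 hy2
    have hw0 : w₀ < w := by
      by_contra h7
      exact n2 (by rw [hS₂]; exact ⟨hp, hpX, w, hw, by omega⟩)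
    obtain ⟨g0, g1, g2⟩ := hw₀ w hw0
    have hP' : |(x - y) / k - G w| ≤ (w : ℝ) ^ ϑ := hP
    obtain ⟨ha, hb⟩ := abs_le.1 hP'
    have hz : z₀ ≤ (x - y) / k := by linarith
    refine hreal k l x y hk hgcd hz hkc hy1 hy2 ?_
    by_contra h8
    apply n1
    rw [hS₁]
    refine ⟨hp, hpX, fun h9 => ?_⟩
    have hz2 : (2 : ℝ) ≤ (x - y) / k := hz₀.trans hz
    have hfl1 : ((⌊(x - y) / k⌋₊ : ℕ) : ℝ) ≤ (x - y) / k := Nat.floor_le (by linarith)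
    have hfl2 : (x - y) / k < ((⌊(x - y) / k⌋₊ : ℕ) : ℝ) + 1 := Nat.lt_floor_add_one _
    refine h9 w hw ⌊(x - y) / k⌋₊ (Nat.le_floor (by push_cast; linarith)) trivial ?_ h8
    refine le_trans ?_ g2
    rw [abs_le]
    constructor <;> linarith
  calc ({p : ℕ | p.Prime ∧ p ≤ X ∧ ¬ ∀ w, SubOrder ((X : ℝ) ^ γ) p w →
        Holds η κ c δ₀ (fun z => |z - G w| ≤ (w : ℝ) ^ ϑ)}.ncard : ℝ) ≤ ((S₁ ∪ S₂).ncard : ℝ) := by
          rw [Nat.cast_le]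
          exact Set.ncard_le_ncard hsub hfin
    _ ≤ (S₁.ncard : ℝ) + S₂.ncard := by exact_mod_cast Set.ncard_union_le S₁ S₂
    _ ≤ C₁ * (X : ℝ) ^ (1 - ρ) + C₂ * (X : ℝ) ^ (1 - ρ) := add_le_add h5 h6
    _ = (C₁ + C₂) * (X : ℝ) ^ (1 - ρ) := by ring

end Pool.Agent.T9h59.BT
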