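import Pool.Agent.Results.MP_26a8c3_nt.PositionsInWindows

/-!
# Exceptional positions for the inequality of Brun and Titchmarsh

The number of the exceptional positions is from the starting files (`AlmostAllPositions`, `PositionsInWindows` of
MP_26a8c3_nt, on the library `Y882.BT`); here the scale is the position itself.
-/

set_option autoImplicit false

namespace Pool.Agent.T9h59.BT

open Finset Filter
open Pool.Agent.Results.MP_26a8c3_nt.PositionsInWindows (Bad N N_le primeCount_mono count)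
open Pool.Agent.Results.MP_26a8c3_nt.AlmostAllPositions (primeCount)

open Classical in
/-- dyadic summation -/
lemma dyadic {S : Set ℕ} {s : ℝ} (hs : 0 < s) (K₀ : ℕ)
    (h : ∀ K : ℕ, K₀ ≤ K → (((Ioc K (2 * K)).filter (fun k => k ∈ S)).card : ℝ) ≤ (K : ℝ) ^ s) :
    ∃ C : ℝ, ∀ X : ℕ, 1 ≤ X → (((Icc 1 X).filter (fun k => k ∈ S)).card : ℝ) ≤ C * (X : ℝ) ^ s := by
  obtain ⟨t, ht⟩ : ∃ t : ℝ, t = (1 / 2 : ℝ) ^ s := ⟨_, rfl⟩
  have ht0 : 0 < t := by rw [ht]; positivity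
  have ht1 : t < 1 := by
    rw [ht]
    exact Real.rpow_lt_one (by norm_num) (by norm_num) hs
  obtain ⟨C, hC⟩ : ∃ C : ℝ, C = 2 / (1 - t) + 2 * K₀ + 2 := ⟨_, rfl⟩
  have hC0 : 0 ≤ C := by
    rw [hC]
    have : 0 < 1 - t := by linarith
    positivity
  have hCt : C * t + t + 1 ≤ C := by
    have h1 : 2 ≤ C * (1 - t) := by
      have h2 : 2 / (1 - t) ≤ C := by
        rw [hC]
        have : (0 : ℝ) ≤ K₀ := Nat.cast_nonneg _
        linarith
      rw [div_le_iff₀ (by linarith)] at h2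
      exact h2
    nlinarith
  refine ⟨C, fun X => ?_⟩
  induction X using Nat.strong_induction_on with
  | _ X ih =>
    intro hX
    have hX1 : (1 : ℝ) ≤ X := by exact_mod_cast hX
    have hXs : 1 ≤ (X : ℝ) ^ s := Real.one_le_rpow hX1 hs.le
    by_cases hsm : X < 2 * K₀ + 2
    · have h1 : (((Icc 1 X).filter (fun k => k ∈ S)).card : ℝ) ≤ X := by
        have := card_filter_le (Icc 1 X) (fun k => k ∈ S)
        rw [Nat.card_Icc, Nat.add_sub_cancel] at this
        exact_mod_cast this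
      have h2 : (X : ℝ) ≤ 2 * K₀ + 2 := by exact_mod_cast hsm.le
      have h3 : (0 : ℝ) < 1 - t := by linarith
      have h4 : (X : ℝ) ≤ C := by
        rw [hC]
        have : 0 ≤ 2 / (1 - t) := by positivity
        linarith
      nlinarith
    · push Not at hsm
      obtain ⟨K, hK⟩ : ∃ K, K = X / 2 := ⟨_, rfl⟩
      have hK1 : 1 ≤ K := by omega
      have hK2 : K < X := by omega
      have h1 := ih K hK2 hK1
      have h2 := h K (by omega)
      have hKX : (K : ℝ) ≤ X / 2 := by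
        rw [le_div_iff₀ (by norm_num)]
        exact_mod_cast (by omega : K * 2 ≤ X)
      have hKs : (K : ℝ) ^ s ≤ t * (X : ℝ) ^ s := by
        rw [ht, ← Real.mul_rpow (by norm_num) (by positivity)]
        exact Real.rpow_le_rpow (by positivity) (by linarith) hs.le
      have hsub : (Icc 1 X).filter (fun k => k ∈ S) ⊆
          ((Icc 1 K).filter (fun k => k ∈ S) ∪ (Ioc K (2 * K)).filter (fun k => k ∈ S)) ∪ {X} := by
        intro k hk
        rw [mem_filter, mem_Icc] at hk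
        rw [mem_union, mem_union, mem_filter, mem_filter, mem_Icc, mem_Ioc, mem_singleton]
        by_cases hkK : k ≤ K
        · exact Or.inl (Or.inl ⟨⟨hk.1.1, hkK⟩, hk.2⟩)
        · by_cases hk2 : k ≤ 2 * K
          · exact Or.inl (Or.inr ⟨⟨by omega, hk2⟩, hk.2⟩)
          · right
            omega
      have h3 : (((Icc 1 X).filter (fun k => k ∈ S)).card : ℝ) ≤
          ((Icc 1 K).filter (fun k => k ∈ S)).card + ((Ioc K (2 * K)).filter (fun k => k ∈ S)).card + 1 := by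
        have h4 := (card_le_card hsub).trans ((card_union_le _ _).trans
          (Nat.add_le_add_right (card_union_le _ _) _))
        rw [card_singleton] at h4
        exact_mod_cast h4
      calc (((Icc 1 X).filter (fun k => k ∈ S)).card : ℝ)
          ≤ C * (K : ℝ) ^ s + (K : ℝ) ^ s + 1 := by linarith
        _ ≤ C * (t * (X : ℝ) ^ s) + t * (X : ℝ) ^ s + (X : ℝ) ^ s := by
            have := mul_le_mul_of_nonneg_left hKs hC0
            linarith
        _ = (C * t + t + 1) * (X : ℝ) ^ s := by ring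
        _ ≤ C * (X : ℝ) ^ s := mul_le_mul_of_nonneg_right hCt (by positivity)

/-- the number of the exceptional positions, the scale being the position -/
theorem count_nat (t η c δ ρ : ℝ) (ht1 : 1 / 2 ≤ t) (ht : t < 1) (hη : 0 < η) (hc : 0 ≤ c) (hδ : 0 < δ) (hρ : 1 < ρ)
    (hs : 0 < 2 * t - η + 2 * c) (ε : ℝ) (hε : 0 < ε) :
    ∃ C : ℝ, ∀ X : ℕ, 1 ≤ X →
      ({M : ℕ | 1 ≤ M ∧ M ≤ X ∧ True ∧ ¬ M ∉ Bad t η c δ ρ M}.ncard : ℝ) ≤ C * (X : ℝ) ^ (2 * t - η + 2 * c + ε) := by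
  classical
  obtain ⟨s, hs'⟩ : ∃ s, s = 2 * t - η + 2 * c := ⟨_, rfl⟩
  obtain ⟨C₀, v₀, h₀⟩ := count t (η - ε / 4) c δ ρ ht1 ht hc hδ hρ 0 (ε / 4) (by positivity)
  have hT : Tendsto (fun K : ℕ => (K : ℝ) ^ (ε / 4)) atTop atTop :=
    (tendsto_rpow_atTop (by positivity)).comp tendsto_natCast_atTop_atTop
  have hT2 : Tendsto (fun K : ℕ => (K : ℝ) ^ (ε / 2)) atTop atTop :=
    (tendsto_rpow_atTop (by positivity)).comp tendsto_natCast_atTop_atTop
  obtain ⟨K₀, hK₀⟩ := ((hT.eventually_ge_atTop (2 ^ η)).and ((hT2.eventually_ge_atTop (|C₀| * 2 ^ (s + ε / 2))).and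
    ((tendsto_natCast_atTop_atTop (R := ℝ)).eventually_ge_atTop (max v₀ 1)))).exists_forall_of_atTop
  obtain ⟨C, hC⟩ := dyadic (S := {M : ℕ | M ∈ Bad t η c δ ρ M}) (s := s + ε) (by rw [hs']; linarith) K₀ (by
    intro K hK
    obtain ⟨g1, g2, g3⟩ := hK₀ K hK
    have hK1 : (1 : ℝ) ≤ K := (le_max_right _ _).trans g3
    have hK0 : (0 : ℝ) < K := by linarith
    have h2K : (0 : ℝ) < 2 * K := by linarith
    obtain ⟨h1, h2⟩ := h₀ (2 * K) (by have := (le_max_left v₀ 1).trans g3; linarith)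
    have hsub : (((Ioc K (2 * K)).filter (fun k => k ∈ {M : ℕ | M ∈ Bad t η c δ ρ M}) : Finset ℕ) : Set ℕ) ⊆
        {M : ℕ | M ∈ Bad t (η - ε / 4) c δ ρ (2 * K) ∧ (M : ℝ) ≤ (((0 : ℕ) : ℝ) + 1) * (2 * K)} := by
      intro M hM
      rw [mem_coe, mem_filter, mem_Ioc] at hM
      obtain ⟨⟨hM1, hM2⟩, hM3, k, l, i, b1, b2, b3, b4, b5, b6⟩ := hM
      have hMK : (K : ℝ) ≤ M := by exact_mod_cast hM1.le
      have hM2r : (M : ℝ) ≤ 2 * K := by exact_mod_cast hM2
      have hM0 : (0 : ℝ) < M := by linarith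
      refine ⟨⟨hM3, k, l, i, b1, b2.trans (Real.rpow_le_rpow hM0.le hM2r hc), b3, ?_,
        b5.trans (Real.rpow_le_rpow hM0.le hM2r (by linarith)), ?_⟩, ?_⟩
      · refine le_trans ?_ b4
        have e1 : (2 * (K : ℝ)) ^ (η - ε / 4) = (2 : ℝ) ^ η * (K : ℝ) ^ η / ((2 : ℝ) ^ (ε / 4) * (K : ℝ) ^ (ε / 4)) := by
          rw [Real.rpow_sub h2K, Real.mul_rpow (by norm_num) hK0.le, Real.mul_rpow (by norm_num) hK0.le]
        have e2 : (1 : ℝ) ≤ (2 : ℝ) ^ (ε / 4) := Real.one_le_rpow (by norm_num) (by positivity)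
        rw [e1, div_le_iff₀ (by positivity)]
        have e3 : (K : ℝ) ^ η ≤ (M : ℝ) ^ η := Real.rpow_le_rpow hK0.le hMK hη.le
        have e4 : (2 : ℝ) ^ η ≤ (2 : ℝ) ^ (ε / 4) * (K : ℝ) ^ (ε / 4) := by
          calc (2 : ℝ) ^ η ≤ (K : ℝ) ^ (ε / 4) := g1
            _ = 1 * (K : ℝ) ^ (ε / 4) := (one_mul _).symm
            _ ≤ _ := mul_le_mul_of_nonneg_right e2 (by positivity)
        calc (2 : ℝ) ^ η * (K : ℝ) ^ η ≤ ((2 : ℝ) ^ (ε / 4) * (K : ℝ) ^ (ε / 4)) * (M : ℝ) ^ η :=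
              mul_le_mul e4 e3 (by positivity) (by positivity)
          _ = _ := mul_comm _ _
      · refine lt_of_le_of_lt ?_ b6
        have hM1' : (1 : ℝ) ≤ M := by linarith
        have hφ : (0 : ℝ) < Nat.totient k := by exact_mod_cast Nat.totient_pos.2 b1
        rcases eq_or_lt_of_le hM1' with h1 | h1
        · rw [← h1, Real.log_one, mul_zero, div_zero, mul_zero] at b6
          have hK1' : K = 1 ∨ K = 0 := by
            have : M = 1 := by exact_mod_cast h1.symm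
            omega
          exfalso
          have : M = 1 := by exact_mod_cast h1.symm
          have : K < 1 := by omega
          have : (K : ℝ) < 1 := by exact_mod_cast this
          linarith
        · have hl : 0 < Real.log M := Real.log_pos h1
          apply mul_le_mul_of_nonneg_left _ (by positivity)
          apply div_le_div_of_nonneg_left (by positivity) (by positivity)
          exact mul_le_mul_of_nonneg_left (Real.log_le_log hM0 hM2r) hφ.le
      · rw [Nat.cast_zero, zero_add, one_mul]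
        exact hM2r
    have h3 := Set.ncard_le_ncard hsub h1
    rw [Set.ncard_coe_finset] at h3
    have h4 : (((Ioc K (2 * K)).filter (fun k => k ∈ {M : ℕ | M ∈ Bad t η c δ ρ M})).card : ℝ) ≤
        C₀ * (2 * K) ^ (2 * t - (η - ε / 4) + 2 * c + ε / 4) := le_trans (by exact_mod_cast h3) h2
    refine h4.trans ?_
    have e5 : 2 * t - (η - ε / 4) + 2 * c + ε / 4 = s + ε / 2 := by rw [hs']; ring
    rw [e5, Real.mul_rpow (by norm_num) hK0.le]
    calc C₀ * ((2 : ℝ) ^ (s + ε / 2) * (K : ℝ) ^ (s + ε / 2)) ≤ |C₀| * ((2 : ℝ) ^ (s + ε / 2) * (K : ℝ) ^ (s + ε / 2)) :=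
          mul_le_mul_of_nonneg_right (le_abs_self _) (by positivity)
      _ = (|C₀| * 2 ^ (s + ε / 2)) * (K : ℝ) ^ (s + ε / 2) := by ring
      _ ≤ (K : ℝ) ^ (ε / 2) * (K : ℝ) ^ (s + ε / 2) := mul_le_mul_of_nonneg_right g2 (by positivity)
      _ = (K : ℝ) ^ (s + ε) := by
          rw [← Real.rpow_add hK0]
          congr 1
          ring)
  refine ⟨C, fun X hX => ?_⟩
  have h := hC X hX
  rw [hs'] at h
  refine le_trans (le_of_eq ?_) h
  have e : {M : ℕ | 1 ≤ M ∧ M ≤ X ∧ True ∧ ¬ M ∉ Bad t η c δ ρ M} =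
      (((Icc 1 X).filter (fun v => v ∈ {M : ℕ | M ∈ Bad t η c δ ρ M}) : Finset ℕ) : Set ℕ) := by
    ext q
    simp only [Set.mem_ofPred_eq, coe_filter, mem_Icc]
    tauto
  rw [e, Set.ncard_coe_finset]

/-- **From the positions to the real numbers.** -/
theorem real_bound {t η κ c c' δ₀ : ℝ} (ht1 : 1 / 2 ≤ t) (hη : 0 < η) (hηκ : η ≤ κ) (hκ : κ < t)
    (hc : 0 ≤ c) (hcc : c < c') (hδ₀ : δ₀ < 2 - 2 * κ / t) :
    ∃ δ ρ : ℝ, 0 < δ ∧ 1 < ρ ∧ ∃ z₀ : ℝ, 2 ≤ z₀ ∧ ∀ (k : ℕ) (l : ℤ) (x y : ℝ), 1 ≤ k → Int.gcd l k = 1 →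
      z₀ ≤ (x - y) / k → (k : ℝ) ≤ ((x - y) / k) ^ c → ((x - y) / k) ^ η ≤ y / k → y / k ≤ ((x - y) / k) ^ κ →
      ⌊(x - y) / k⌋₊ ∉ Bad t η c' δ ρ ⌊(x - y) / k⌋₊ →
      (N x y k l : ℝ) < (2 - δ₀) * y / (Nat.totient k * Real.log (y / k)) := by
  have ht0 : 0 < t := by linarith
  have hκ0 : 0 < κ := by linarith
  -- the constants
  obtain ⟨a, ha⟩ : ∃ a : ℝ, a = (2 - δ₀) * t / (2 * κ) := ⟨_, rfl⟩
  have ha1 : 1 < a := by
    rw [ha, lt_div_iff₀ (by positivity)]
    have h1 : 2 * κ / t < 2 - δ₀ := by linarith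
    rw [div_lt_iff₀ ht0] at h1
    linarith
  obtain ⟨β, hβ⟩ : ∃ β : ℝ, β = min 1 ((a - 1) / 16) := ⟨_, rfl⟩
  have hβ0 : 0 < β := by rw [hβ]; exact lt_min one_pos (by linarith)
  have hβ1 : β ≤ 1 := by rw [hβ]; exact min_le_left _ _
  have hβ2 : β ≤ (a - 1) / 16 := by rw [hβ]; exact min_le_right _ _
  have hβ3 : (1 + β) ^ 4 < a := by
    have h1 : 0 ≤ β * (1 - β) := mul_nonneg hβ0.le (sub_nonneg.2 hβ1)
    have h2 : 0 ≤ β * β * (1 - β) := mul_nonneg (mul_nonneg hβ0.le hβ0.le) (sub_nonneg.2 hβ1)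
    have h3 : 0 ≤ β * β * β * (1 - β) := mul_nonneg (by positivity) (sub_nonneg.2 hβ1)
    have h4 : (1 + β) ^ 4 = 1 + 15 * β - 11 * (β * (1 - β)) - 5 * (β * β * (1 - β)) - β * β * β * (1 - β) := by ring
    linarith
  obtain ⟨ρ, hρ⟩ : ∃ ρ : ℝ, ρ = 1 + β := ⟨_, rfl⟩
  obtain ⟨δ, hδ⟩ : ∃ δ : ℝ, δ = β * (2 / t) := ⟨_, rfl⟩
  have hδ0 : 0 < δ := by rw [hδ]; positivity
  have T : ∀ {r : ℝ}, 0 < r → Tendsto (fun z : ℝ => z ^ r) atTop atTop := fun hr => tendsto_rpow_atTop hr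
  obtain ⟨z₁, hz₁⟩ := (((T hη).eventually_ge_atTop (5 / β + 5)).and (((T (show 0 < t - κ by linarith)).eventually_ge_atTop
    (4 * 2 ^ t)).and (((T (show 0 < c' - c by linarith)).eventually_ge_atTop (2 ^ c')).and
    ((T hβ0).eventually_ge_atTop (2 ^ (1 + β)))))).exists_forall_of_atTop
  refine ⟨δ, ρ, hδ0, by rw [hρ]; linarith, max z₁ 4, (by norm_num : (2 : ℝ) ≤ 4).trans (le_max_right _ _),
    fun k l x y hk hgcd hz hkc hy1 hy2 hbad => ?_⟩
  have hk0 : (0 : ℝ) < k := by exact_mod_cast hk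
  obtain ⟨z, hz'⟩ : ∃ z, z = (x - y) / k := ⟨_, rfl⟩
  obtain ⟨u, hu⟩ : ∃ u, u = y / k := ⟨_, rfl⟩
  rw [← hz'] at hz hkc hy1 hy2 hbad
  rw [← hu] at hy1 hy2 ⊢
  obtain ⟨g1, g2, g3, g4⟩ := hz₁ z ((le_max_left _ _).trans hz)
  have hz4 : 4 ≤ z := (le_max_right _ _).trans hz
  have hz0 : 0 < z := by linarith
  have hu5 : 5 / β + 5 ≤ u := g1.trans hy1
  have h5β : 0 < 5 / β := by positivity
  have hu0 : 5 ≤ u := by linarith
  have hxy' : x - y = k * z := by
    rw [hz']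
    field_simp
  have hyk : y = k * u := by
    rw [hu]
    field_simp
  have hxk : x = k * (z + u) := by linarith [hxy', hyk, mul_add (k : ℝ) z u]
  obtain ⟨M, hM⟩ : ∃ M : ℕ, M = ⌊z⌋₊ := ⟨_, rfl⟩
  rw [← hM] at hbad
  have hMz : (M : ℝ) ≤ z := by rw [hM]; exact Nat.floor_le hz0.le
  have hMz2 : z < (M : ℝ) + 1 := by rw [hM]; exact Nat.lt_floor_add_one z
  have hMpos : 1 ≤ M := by rw [hM]; exact Nat.le_floor (by push_cast; linarith)
  have hM3 : (3 : ℝ) ≤ M := by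
    have : 3 ≤ M := by rw [hM]; exact Nat.le_floor (by push_cast; linarith)
    exact_mod_cast this
  have hM0 : (0 : ℝ) < M := by linarith
  have hz2M : z ≤ 2 * M := by linarith
  -- the length
  obtain ⟨H, hH⟩ : ∃ H : ℕ, H = ⌈u + 1⌉₊ := ⟨_, rfl⟩
  have hH1 : u + 1 ≤ H := by rw [hH]; exact Nat.le_ceil _
  have hH2 : (H : ℝ) < u + 1 + 1 := by rw [hH]; exact Nat.ceil_lt_add_one (by linarith)
  obtain ⟨j, hj1, hj2⟩ := exists_nat_pow_near (show (1 : ℝ) ≤ H by linarith) (show 1 < ρ by rw [hρ]; linarith)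
  obtain ⟨H', hH'⟩ : ∃ H' : ℕ, H' = ⌈ρ ^ (j + 1)⌉₊ := ⟨_, rfl⟩
  have hHH' : H ≤ H' := by
    have h1 : (H : ℝ) ≤ H' := by rw [hH']; exact hj2.le.trans (Nat.le_ceil _)
    exact_mod_cast h1
  have hρ0 : 0 < ρ := by rw [hρ]; linarith
  have hH'2 : (H' : ℝ) ≤ ρ ^ 2 * u := by
    have h1 : (H' : ℝ) < ρ ^ (j + 1) + 1 := by rw [hH']; exact Nat.ceil_lt_add_one (by positivity)
    have h2 : ρ ^ (j + 1) = ρ * ρ ^ j := by ring
    have h3 : ρ * ρ ^ j ≤ ρ * (u + 2) := by
      apply mul_le_mul_of_nonneg_left _ hρ0.le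
      linarith
    have h4 : 5 + 5 * β ≤ β * u := by
      have := mul_le_mul_of_nonneg_left hu5 hβ0.le
      have h5 : β * (5 / β + 5) = 5 + 5 * β := by field_simp
      linarith
    have h5 : ρ ^ 2 * u = ρ * u + ρ * (β * u) := by
      rw [hρ]
      ring
    have h6 : 1 * (β * u) ≤ ρ * (β * u) := mul_le_mul_of_nonneg_right (by rw [hρ]; linarith) (by positivity)
    rw [h5]
    have h7 : ρ * (u + 2) = ρ * u + 2 * ρ := by ring
    have h8 : ρ ≤ 2 := by rw [hρ]; linarith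
    linarith
  have hηH : (M : ℝ) ^ η ≤ (H' : ℝ) := by
    have h1 : (H : ℝ) ≤ H' := by exact_mod_cast hHH'
    have h2 : (M : ℝ) ^ η ≤ z ^ η := Real.rpow_le_rpow hM0.le hMz hη.le
    linarith
  have hHt : (H' : ℝ) ≤ (M : ℝ) ^ t := by
    have h1 : ρ ^ 2 ≤ 4 := by rw [hρ]; nlinarith
    have h2 : z ^ t = z ^ (t - κ) * z ^ κ := by
      rw [← Real.rpow_add hz0]
      congr 1
      ring
    have h3 : z ^ t ≤ 2 ^ t * (M : ℝ) ^ t := by
      rw [← Real.mul_rpow (by norm_num) hM0.le]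
      exact Real.rpow_le_rpow hz0.le hz2M ht0.le
    have h4 : (0 : ℝ) < 2 ^ t := by positivity
    have h5 : 2 ^ t * (H' : ℝ) ≤ 2 ^ t * (M : ℝ) ^ t := by
      calc 2 ^ t * (H' : ℝ) ≤ 2 ^ t * (4 * z ^ κ) := by
            apply mul_le_mul_of_nonneg_left _ h4.le
            exact hH'2.trans (mul_le_mul h1 hy2 (by linarith) (by norm_num))
        _ = (4 * 2 ^ t) * z ^ κ := by ring
        _ ≤ z ^ (t - κ) * z ^ κ := mul_le_mul_of_nonneg_right g2 (Real.rpow_nonneg hz0.le _)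
        _ = z ^ t := h2.symm
        _ ≤ _ := h3
    exact le_of_mul_le_mul_left h5 h4
  have hkc' : (k : ℝ) ≤ (M : ℝ) ^ c' := by
    have h2 : z ^ c' = z ^ (c' - c) * z ^ c := by
      rw [← Real.rpow_add hz0]
      congr 1
      ring
    have h3 : z ^ c' ≤ 2 ^ c' * (M : ℝ) ^ c' := by
      rw [← Real.mul_rpow (by norm_num) hM0.le]
      exact Real.rpow_le_rpow hz0.le hz2M (by linarith)
    have h4 : (0 : ℝ) < 2 ^ c' := by positivity
    have h5 : 2 ^ c' * (k : ℝ) ≤ 2 ^ c' * (M : ℝ) ^ c' := by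
      calc 2 ^ c' * (k : ℝ) ≤ z ^ (c' - c) * z ^ c := mul_le_mul g3 hkc hk0.le (Real.rpow_nonneg hz0.le _)
        _ = z ^ c' := h2.symm
        _ ≤ _ := h3
    exact le_of_mul_le_mul_left h5 h4
  have hmain : (primeCount (k * (M + H')) (k * H') k l : ℝ) ≤
      (2 / t + δ) * (k * (H' : ℝ) / (Nat.totient k * Real.log M)) := by
    by_contra hcon
    push Not at hcon
    exact hbad ⟨hMpos, k, l, j + 1, hk, hkc', hgcd, by rw [← hH']; exact hηH, by rw [← hH']; exact hHt,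
      by rw [← hH']; exact hcon⟩
  have hNle : (N x y k l : ℝ) ≤ (primeCount (k * (M + H')) (k * H') k l : ℝ) := by
    have h1 : N x y k l ≤ primeCount (k * (M + H)) (k * H) k l := by
      apply N_le
      · rw [hxy']
        exact mul_le_mul_of_nonneg_left hMz hk0.le
      · rw [hxk]
        apply mul_le_mul_of_nonneg_left _ hk0.le
        linarith
    exact_mod_cast h1.trans (primeCount_mono k l M H H' hHH')
  have hφ : (0 : ℝ) < Nat.totient k := by exact_mod_cast Nat.totient_pos.2 hk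
  have hlM : 0 < Real.log M := Real.log_pos (by linarith)
  have hlu : 0 < Real.log u := Real.log_pos (by linarith)
  have hlz : Real.log z ≤ ρ * Real.log M := by
    have h1 : z ^ (1 + β) ≤ 2 ^ (1 + β) * (M : ℝ) ^ (1 + β) := by
      rw [← Real.mul_rpow (by norm_num) hM0.le]
      exact Real.rpow_le_rpow hz0.le hz2M (by linarith)
    have h2 : z ^ (1 + β) = z * z ^ β := by rw [Real.rpow_add hz0, Real.rpow_one]
    have h3 : (0 : ℝ) < 2 ^ (1 + β) := by positivity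
    have h4 : 2 ^ (1 + β) * z ≤ 2 ^ (1 + β) * (M : ℝ) ^ (1 + β) := by
      calc 2 ^ (1 + β) * z ≤ z ^ β * z := mul_le_mul_of_nonneg_right g4 hz0.le
        _ = z ^ (1 + β) := by rw [h2]; ring
        _ ≤ _ := h1
    have h5 : z ≤ (M : ℝ) ^ (1 + β) := le_of_mul_le_mul_left h4 h3
    have h6 := Real.log_le_log hz0 h5
    rw [Real.log_rpow hM0] at h6
    rw [hρ]
    exact h6
  have hlu2 : Real.log u ≤ κ * (ρ * Real.log M) := by
    have h1 := Real.log_le_log (by linarith : 0 < u) hy2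
    rw [Real.log_rpow hz0] at h1
    exact h1.trans (mul_le_mul_of_nonneg_left hlz hκ0.le)
  have h2t : 2 / t + δ = 2 / t * ρ := by
    rw [hδ, hρ]
    ring
  have hy0 : 0 < y := by
    rw [hyk]
    positivity
  calc (N x y k l : ℝ) ≤ (2 / t + δ) * (k * (H' : ℝ) / (Nat.totient k * Real.log M)) := hNle.trans hmain
    _ ≤ (2 / t * ρ) * (k * (ρ ^ 2 * u) / (Nat.totient k * Real.log M)) := by
        rw [h2t]
        apply mul_le_mul_of_nonneg_left _ (by positivity)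
        apply div_le_div_of_nonneg_right _ (by positivity)
        exact mul_le_mul_of_nonneg_left hH'2 hk0.le
    _ = (2 * κ / t) * ρ ^ 4 * (y / (Nat.totient k * (κ * (ρ * Real.log M)))) := by
        rw [hyk]
        field_simp
    _ < (2 * κ / t) * a * (y / (Nat.totient k * (κ * (ρ * Real.log M)))) := by
        apply mul_lt_mul_of_pos_right _ (by positivity)
        apply mul_lt_mul_of_pos_left _ (by positivity)
        rw [hρ]
        exact hβ3
    _ = (2 - δ₀) * (y / (Nat.totient k * (κ * (ρ * Real.log M)))) := by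
        rw [ha]
        field_simp
    _ ≤ (2 - δ₀) * (y / (Nat.totient k * Real.log u)) := by
        have h3 : 0 < 2 - δ₀ := by
          have : 0 < 2 * κ / t := by positivity
          linarith
        apply mul_le_mul_of_nonneg_left _ h3.le
        apply div_le_div_of_nonneg_left hy0.le (by positivity)
        exact mul_le_mul_of_nonneg_left hlu2 hφ.le
    _ = (2 - δ₀) * y / (Nat.totient k * Real.log u) := by ring

end Pool.Agent.T9h59.BT
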